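import Pool.Agent.Helper92.RECT.Goals1

/-!
# Processes on numbers with one head: the inner loop in a cube (`INL_stmt`)
-/

set_option autoImplicit false

namespace Pool.Agent.Helper96.RECT

open Pool.Agent.Helper92.RECT
open Pool.Agent.Helper65.LinSpace Pool.Agent.Helper78.Mpc Pool.Agent.Helper28.Ram Finset

theorem X_succ (P : Pr) (t : ℕ) : P.X (t + 1) =
    (P.N (P.X t).1 ((P.X t).2 (P.ce (P.X t).1)),
      Function.update (P.X t).2 (P.ce (P.X t).1)
        (P.W (P.X t).1 ((P.X t).2 (P.ce (P.X t).1)))) := rfl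

theorem act_eq_zero {P : Pr} {B z : ℕ} (h : P.act B z = 0) :
    P.blk (P.ce (z % 2 ^ P.sx)) ≠ B ∨ P.fin (z % 2 ^ P.sx) ≠ 0 := by
  by_contra hc
  push Not at hc
  unfold Pr.act eq01 at h
  rw [if_pos hc.1, if_pos hc.2] at h
  exact one_ne_zero h

theorem act_ne_zero {P : Pr} {B z : ℕ} (h : P.act B z ≠ 0) :
    P.blk (P.ce (z % 2 ^ P.sx)) = B ∧ P.fin (z % 2 ^ P.sx) = 0 := by
  unfold Pr.act eq01 at h
  constructor
  · by_contra hc
    rw [if_neg hc, zero_mul] at h
    exact h rfl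
  · by_contra hc
    rw [if_neg hc, mul_zero] at h
    exact h rfl

/-- One step of the loop. -/
theorem loc_step (hG : GRID_stmt) (hR : RNG_stmt) {P : Pr} (hP : P.Ok) {B t z s : ℕ}
    (h : Inn P B t z s) (ha : P.act B z ≠ 0) :
    Inn P B t (P.loc B z) (s + 1) ∧
      ((P.X (s + 1)).2 = (P.X s).2 → P.loc B z / 2 ^ P.sx = z / 2 ^ P.sx) := by
  obtain ⟨hb, -⟩ := act_ne_zero ha
  obtain ⟨r1, r2, r3⟩ := hR P hP s
  have hq := h.q
  rw [hq] at hb
  -- the content
  have hv : P.vl z = (P.X s).2 (P.ce (P.X s).1) := by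
    unfold Pr.vl
    rw [hq]
    exact h.cub _ r2 hb
  have hvlt : P.vl z < 2 ^ (P.S + 1) := by
    rw [hv]
    exact r3 _
  have hN := hP.N_lt _ _ r1 hvlt
  have hW := hP.W_lt _ _ r1 hvlt
  have hdig : ∀ j < P.d ^ P.D, ifz (eq01 j (P.cel (P.ce (P.X s).1)))
      (dig (2 ^ (P.S + 1)) (z / 2 ^ P.sx) j) (P.W (P.X s).1 (P.vl z)) < 2 ^ (P.S + 1) := by
    intro j _
    unfold ifz
    split_ifs
    · exact dig_lt (by positivity) _ _
    · exact hW
  have hloc : P.loc B z = P.N (P.X s).1 (P.vl z) + 2 ^ P.sx *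
      tab (2 ^ (P.S + 1)) (P.d ^ P.D) fun j => ifz (eq01 j (P.cel (P.ce (P.X s).1)))
        (dig (2 ^ (P.S + 1)) (z / 2 ^ P.sx) j) (P.W (P.X s).1 (P.vl z)) := by
    unfold Pr.loc
    conv_lhs => unfold ifz
    rw [if_neg ha, hq]
    rfl
  set T := tab (2 ^ (P.S + 1)) (P.d ^ P.D) fun j => ifz (eq01 j (P.cel (P.ce (P.X s).1)))
        (dig (2 ^ (P.S + 1)) (z / 2 ^ P.sx) j) (P.W (P.X s).1 (P.vl z)) with hT
  have hpos : 0 < 2 ^ P.sx := by positivity
  have hmod : P.loc B z % 2 ^ P.sx = P.N (P.X s).1 (P.vl z) := by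
    rw [hloc, Nat.add_mul_mod_self_left, Nat.mod_eq_of_lt hN]
  have hdiv : P.loc B z / 2 ^ P.sx = T := by
    rw [hloc, Nat.add_mul_div_left _ _ hpos, Nat.div_eq_of_lt hN, zero_add]
  have hTd : ∀ j < P.d ^ P.D, dig (2 ^ (P.S + 1)) T j =
      ifz (eq01 j (P.cel (P.ce (P.X s).1)))
        (dig (2 ^ (P.S + 1)) (z / 2 ^ P.sx) j) (P.W (P.X s).1 (P.vl z)) := fun j hj =>
    dig_tab hdig hj
  have hX : P.X (s + 1) = (P.N (P.X s).1 (P.vl z),
      Function.update (P.X s).2 (P.ce (P.X s).1) (P.W (P.X s).1 (P.vl z))) := by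
    rw [X_succ, hv]
  refine ⟨⟨?_, ?_, ?_, ?_⟩, ?_⟩
  · rw [hmod, hX]
  · rw [hdiv, pow_mul]
    exact tab_lt hdig
  · intro p' hp' hB
    rw [hdiv, hTd _ (hG.cel_lt P hP.hd p'), hX]
    show _ = Function.update (P.X s).2 (P.ce (P.X s).1) (P.W (P.X s).1 (P.vl z)) p'
    by_cases he : p' = P.ce (P.X s).1
    · rw [he, Function.update_self]
      unfold ifz eq01
      rw [if_pos rfl, if_neg one_ne_zero]
    · have hne : P.cel p' ≠ P.cel (P.ce (P.X s).1) := by
        intro hc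
        apply he
        rw [← hG.ccl P hP.hd hP.ho p' hp', ← hG.ccl P hP.hd hP.ho _ r2, hc, hB, hb]
      rw [Function.update_of_ne he]
      unfold ifz eq01
      rw [if_neg hne, if_pos rfl]
      exact h.cub _ hp' hB
  · intro p' hB
    rw [hX]
    show Function.update (P.X s).2 (P.ce (P.X s).1) (P.W (P.X s).1 (P.vl z)) p' = _
    have he : p' ≠ P.ce (P.X s).1 := by
      rintro rfl
      exact hB hb
    rw [Function.update_of_ne he]
    exact h.out _ hB
  · intro hc
    have hWv : P.W (P.X s).1 (P.vl z) = P.vl z := by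
      have h1 : (P.X (s + 1)).2 (P.ce (P.X s).1) = P.W (P.X s).1 (P.vl z) := by
        rw [hX]
        show Function.update (P.X s).2 (P.ce (P.X s).1) (P.W (P.X s).1 (P.vl z)) _ = _
        rw [Function.update_self]
      rw [← h1, hc, hv]
    rw [hdiv]
    have hlt : z / 2 ^ P.sx < (2 ^ (P.S + 1)) ^ (P.d ^ P.D) := by
      rw [← pow_mul]
      exact h.lt
    conv_rhs => rw [← tab_dig (z / 2 ^ P.sx) (P.d ^ P.D) hlt]
    rw [hT]
    apply tab_congr
    intro j _
    unfold ifz eq01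
    by_cases h1 : j = P.cel (P.ce (P.X s).1)
    · rw [if_pos h1, if_neg one_ne_zero, hWv, h1]
      unfold Pr.vl
      rw [hq]
    · rw [if_neg h1, if_pos rfl]

/-- INL. -/
theorem inl (hG : GRID_stmt) (hR : RNG_stmt) : INL_stmt := by
  intro P hP B t z hz n
  induction n with
  | zero =>
    exact ⟨0, le_rfl, hz, fun i h1 h2 => absurd h2 (by omega), Or.inl rfl, fun _ => rfl⟩
  | succ n ih =>
    obtain ⟨m, hm, h1, h2, h3, h4⟩ := ih
    have hs : P.rn B z (n + 1) = P.loc B (P.rn B z n) := rfl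
    by_cases ha : P.act B (P.rn B z n) = 0
    · have hl : P.loc B (P.rn B z n) = P.rn B z n := by
        unfold Pr.loc
        conv_lhs => unfold ifz
        rw [if_pos ha]
      rw [hs, hl]
      have h5 := act_eq_zero ha
      rw [h1.q] at h5
      exact ⟨m, by omega, h1, h2, Or.inr h5, h4⟩
    · have h5 := act_ne_zero ha
      rw [h1.q] at h5
      have hmn : m = n := by
        rcases h3 with h3 | h3 | h3
        · exact h3
        · exact absurd h5.1 h3
        · exact absurd h5.2 h3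
      obtain ⟨h6, h7⟩ := loc_step hG hR hP h1 ha
      rw [hs]
      refine ⟨m + 1, by omega, h6, ?_, Or.inl (by omega), ?_⟩
      · intro i hi1 hi2
        rcases Nat.lt_or_ge i (t + m) with h8 | h8
        · exact h2 i hi1 h8
        · have h9 : i = t + m := by omega
          rw [h9]
          exact h5
      · intro hc
        rw [h7 (hc (t + m) (by omega) (by omega))]
        exact h4 fun i hi1 hi2 => hc i hi1 (by omega)

end Pool.Agent.Helper96.RECT
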